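import Pool.Agent.TH526.CP.Log
import Pool.Agent.W602.GT.KGen

/-! The Campana-Peternell conjecture for varieties which are of general type or have no
pseudo-effective canonical divisor, and for varieties of Kodaira and numerical dimension zero. -/

set_option autoImplicit false
set_option linter.overlappingInstances false
set_option linter.unusedSectionVars false

open FF Pool.Agent.W619.PQ Pool.Agent.TH194.LP

namespace Pool.Agent.TH526.CP

variable {k K : Type} [Field k] [Field K] [Algebra k K] {n : ℕ} {a : Place k K → ℝ}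

theorem psef_gt {h : ℕ} (hps : RestPsef k K n (fun _ => False) (fun _ => 0) a)
    (hA : DivGe k K n a h) : Pool.Agent.W602.GT.Psef k K n (fun _ => False) := by
  obtain ⟨S, hS⟩ := psef hps hA
  refine ⟨S, fun N => ?_⟩
  obtain ⟨j, hj, ω, ⟨h1, h2, h3⟩, h4⟩ := hS N
  have key : ∀ P : Place k K, Pool.Agent.W602.GT.Divisorial n P →
      ∀ D : Fin n → Derivation k K K, (∀ i, Pool.Agent.W602.GT.DerReg P (D i)) →
      Pool.Agent.W602.GT.TwReg P S j (ω D) := by
    intro P hP D hD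
    rcases h2 P hP (fun h => h) D hD with h5 | ⟨s, hs, hs0, h5⟩
    · exact Or.inl h5
    · refine Or.inr ⟨s, hs, hs0, ?_⟩
      rw [mul_zero, sub_zero] at h5
      exact_mod_cast h5
  refine ⟨j, hj, ω, ⟨h1, fun P hP D hD => key P hP D fun i f hf => ?_, fun P hP _ => key P hP⟩, h4⟩
  by_cases h0 : f = 0
  · rw [h0, map_zero]
    exact P.reg_zero
  · have h6 := P.reg_mul (hD i f) hf
    rwa [div_mul_cancel₀ _ h0] at h6

theorem kod_general {h : ℕ} (hg : Pool.Agent.W602.GT.GeneralType k K n) (hh : h ≤ n) :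
    Pool.Agent.W602.GT.KodGe k K n (fun _ => False) h := by
  obtain ⟨-, N, hN, ω, h1, h2, D, hD, h3⟩ := hg
  refine ⟨N, hN, fun i => ω (Fin.castLE (Nat.succ_le_succ hh) i),
    fun j => ⟨h1 _, fun P hP D hDP => ?_, fun P hP _ => h2 P hP _⟩, D, hD, ?_⟩
  · refine h2 P hP _ D fun i f hf => ?_
    by_cases h0 : f = 0
    · rw [h0, map_zero]
      exact P.reg_zero
    · have h3 := P.reg_mul (hDP i f) hf
      rwa [div_mul_cancel₀ _ h0] at h3
  · exact h3.comp (Fin.castLE hh) (Fin.castLE_injective hh)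

theorem num_zero {h0 : ℕ}
    (hnum : Pool.Agent.W619.TW.NumLe k K n (fun _ => False) h0) :
    LPNumLe k K n (fun _ => False) (fun _ => 0) h0 := by
  intro S
  obtain ⟨C, hC⟩ := hnum S
  refine ⟨C, fun m N hm hI => hC m N hm ?_⟩
  obtain ⟨ω, h1, h2⟩ := hI
  have key : ∀ (v : Place k K) (g : K),
      (g = 0 ∨ ∃ s ∈ S, s ≠ 0 ∧ ((1 : ℕ) : ℝ) * v.ord s - (m : ℝ) * 0 ≤ v.ord g) →
      Pool.Agent.W619.TW.Dom v S 1 g := by
    rintro v g (h3 | ⟨s, hs, hs0, h3⟩)
    · exact Or.inl h3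
    · refine Or.inr ⟨s, hs, hs0, ?_⟩
      rw [mul_zero, sub_zero] at h3
      exact_mod_cast h3
  exact ⟨ω, h1, fun l => ⟨(h2 l).1, fun v hv hb D hD => key v _ ((h2 l).2.1 v hv hb D hD),
    fun v hv hb D hD => key v _ ((h2 l).2.2 v hv hb D hD)⟩⟩

end Pool.Agent.TH526.CP
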