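import Pool.Agent.TH194.LP.Exact

/-! The Campana-Peternell conjecture for pairs, from the equality of the Kodaira and numerical
dimensions of `K_X + D + Δ`. -/

set_option autoImplicit false
set_option linter.overlappingInstances false
set_option linter.unusedSectionVars false

universe u v

open FF IntermediateField Pool.Agent.W619.PQ Pool.Agent.W619.PL Pool.Agent.W619.TW
  Pool.Agent.TH194.LP

namespace Pool.Agent.TH526.CP

section

variable (k : Type v) (K : Type u) [Field k] [Field K] [Algebra k K]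

/-- `κ (A) ≥ h` for the effective `ℝ`-divisor `A` with multiplicity `a v` along each divisor `v`:
there is `m ≥ 1` with `h⁰ (j m A) ≥ j ^ h` for all `j ≥ 1`. -/
def DivGe (n : ℕ) (a : Place k K → ℝ) (h : ℕ) : Prop :=
  ∃ m : ℕ, 1 ≤ m ∧ ∀ j : ℕ, 1 ≤ j → ∃ f : Fin (j ^ h) → K, LinearIndependent k f ∧
    ∀ l, ∀ v : Place k K, IsDivisorial v n → - ((j * m : ℕ) * a v) ≤ (v.ord (f l) : ℝ)

/-- `K_X + D + Δ - A` is pseudo-effective, where `A` has multiplicity `a v` and `Δ` has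
multiplicity `δ v` along the divisor `v`, and the divisors over `D` are those with the property
`Bd`: there is a divisor `H` (generated by a finite set `S` of functions) such that for all `j ≥ 1`
the divisor `j (K_X + D + Δ - A) + H` has a nonzero section: a `j`-fold pluricanonical form whose
values on the vector fields regular along `v` (logarithmic along `v`, if `v` lies over `D`) are
zero or have order at least `j a v - j δ v + v (s)`, for some nonzero `s ∈ S`. -/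
def RestPsef (n : ℕ) (Bd : Place k K → Prop) (δ a : Place k K → ℝ) : Prop :=
  ∃ S : Finset K, ∀ j : ℕ, 1 ≤ j → ∃ β : (Fin n → Derivation k K K) → K,
    IsPluriForm k K n j β ∧ (∃ D, β D ≠ 0) ∧
    (∀ v : Place k K, IsDivisorial v n → ¬ Bd v → ∀ D : Fin n → Derivation k K K,
      (∀ l, ∀ f, v.Reg f → v.Reg (D l f)) →
        β D = 0 ∨ ∃ s ∈ S, s ≠ 0 ∧ j * a v - j * δ v + v.ord s ≤ (v.ord (β D) : ℝ)) ∧
    (∀ v : Place k K, IsDivisorial v n → Bd v → ∀ D : Fin n → Derivation k K K,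
      (∀ l, ∀ f, v.Reg (D l f / f)) →
        β D = 0 ∨ ∃ s ∈ S, s ≠ 0 ∧ j * a v - j * δ v + v.ord s ≤ (v.ord (β D) : ℝ))

end

section

variable {k : Type v} {K : Type u} [Field k] [Field K] [Algebra k K] {n : ℕ}
  {Bd : Place k K → Prop} {δ a : Place k K → ℝ}

/-- A section of `j m A` times a section of `j m (K_X + D + Δ - A) + H`. -/
theorem sections {h : ℕ} (hps : RestPsef k K n Bd δ a) (hA : DivGe k K n a h) :
    ∃ (S : Finset K) (m : ℕ), 1 ≤ m ∧ ∀ j : ℕ, 1 ≤ j →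
      HasIndep k K n (j ^ h) (fun ω => IsLPSec k K n Bd δ S (j * m) 1 ω ∧ ∃ D, ω D ≠ 0) := by
  obtain ⟨S, hS⟩ := hps
  obtain ⟨m, hm, hf⟩ := hA
  refine ⟨S, m, hm, fun j hj => ?_⟩
  obtain ⟨f, hfli, hfa⟩ := hf j hj
  obtain ⟨β, h1, ⟨D0, hD0⟩, h2, h3⟩ := hS (j * m) (Nat.mul_pos hj hm)
  have hf0 : ∀ l, f l ≠ 0 := fun l => hfli.ne_zero l
  have hdom : ∀ (v : Place k K) (l : Fin (j ^ h)) (D : Fin n → Derivation k K K),
      IsDivisorial v n →
      (β D = 0 ∨ ∃ s ∈ S, s ≠ 0 ∧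
        (j * m : ℕ) * a v - (j * m : ℕ) * δ v + v.ord s ≤ (v.ord (β D) : ℝ)) →
      (f l * β D = 0 ∨ ∃ s ∈ S, s ≠ 0 ∧
        ((1 : ℕ) : ℝ) * v.ord s - (j * m : ℕ) * δ v ≤ v.ord (f l * β D)) := by
    intro v l D hv hD
    rcases hD with h4 | ⟨s, hs, hs0, h4⟩
    · left; rw [h4, mul_zero]
    · by_cases hb : β D = 0
      · left; rw [hb, mul_zero]
      right
      refine ⟨s, hs, hs0, ?_⟩
      rw [v.ord_mul (hf0 l) hb]
      have h5 := hfa l v hv
      push_cast at h4 h5 ⊢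
      linarith
  refine ⟨fun l D => f l * β D, ?_, fun l => ⟨⟨?_, ?_, ?_⟩, D0, mul_ne_zero (hf0 l) hD0⟩⟩
  · refine LinearIndependent.of_comp
      (LinearMap.proj D0 : ((Fin n → Derivation k K K) → K) →ₗ[k] K) ?_
    have h4 := hfli.map' (LinearMap.mulRight k (β D0))
      (LinearMap.ker_eq_bot.2 (mul_left_injective₀ hD0))
    exact h4
  · intro A D
    change f l * β _ = _
    rw [h1 A D]
    ring
  · intro v hv hB D hD
    exact hdom v l D hv (h2 v hv hB D hD)
  · intro v hv hB D hD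
    exact hdom v l D hv (h3 v hv hB D hD)

/-- If `K_X + D + Δ - A` is pseudo-effective and `A` is effective, then `K_X + D + Δ` is
pseudo-effective. -/
theorem psef {h : ℕ} (hps : RestPsef k K n Bd δ a) (hA : DivGe k K n a h) :
    LPPsef k K n Bd δ := by
  classical
  obtain ⟨S, m, hm, hS⟩ := sections hps hA
  refine ⟨insert 1 S, fun N => ?_⟩
  rcases Nat.eq_zero_or_pos N with rfl | hN
  · refine ⟨1, le_rfl, fun _ => 1, ⟨?_, ?_, ?_⟩, fun _ => 0, one_ne_zero⟩
    · intro A D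
      simp
    · intro v _ _ D _
      exact Or.inr ⟨1, by simp, one_ne_zero, by simp [v.ord_one]⟩
    · intro v _ _ D _
      exact Or.inr ⟨1, by simp, one_ne_zero, by simp [v.ord_one]⟩
  obtain ⟨ω, -, hω⟩ := hS N hN
  obtain ⟨⟨h1, h2, h3⟩, h4⟩ := hω ⟨0, Nat.pow_pos hN⟩
  have hm' : (1 : ℝ) ≤ m := by exact_mod_cast hm
  have hdom : ∀ (v : Place k K) (g : K),
      (g = 0 ∨ ∃ s ∈ S, s ≠ 0 ∧ ((1 : ℕ) : ℝ) * v.ord s - (N * m : ℕ) * δ v ≤ v.ord g) →
      (g = 0 ∨ ∃ s ∈ insert 1 S, s ≠ 0 ∧ (m : ℝ) * v.ord s - (m * N : ℕ) * δ v ≤ v.ord g) := by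
    rintro v g (h5 | ⟨s, hs, hs0, h5⟩)
    · exact Or.inl h5
    · right
      rcases le_or_gt (v.ord s) 0 with h6 | h6
      · refine ⟨s, Finset.mem_insert_of_mem hs, hs0, ?_⟩
        have h7 : (v.ord s : ℝ) ≤ 0 := by exact_mod_cast h6
        have h8 : (m : ℝ) * v.ord s ≤ v.ord s := by nlinarith
        push_cast at h5 ⊢
        linarith [mul_comm (m : ℝ) N, mul_comm (N : ℝ) m]
      · refine ⟨1, Finset.mem_insert_self _ _, one_ne_zero, ?_⟩
        have h7 : (0 : ℝ) < v.ord s := by exact_mod_cast h6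
        rw [v.ord_one]
        push_cast at h5 ⊢
        linarith [mul_comm (m : ℝ) N, mul_comm (N : ℝ) m]
  refine ⟨m, hm, ω ⟨0, Nat.pow_pos hN⟩, ⟨?_, ?_, ?_⟩, h4⟩
  · rw [mul_comm m N]
    exact h1
  · intro v hv hB D hD
    exact hdom v _ (h2 v hv hB D hD)
  · intro v hv hB D hD
    exact hdom v _ (h3 v hv hB D hD)

/-- If the Kodaira and numerical dimensions of `K_X + D + Δ` agree, and `K_X + D + Δ - A` is
pseudo-effective, then `κ (A) ≤ κ (K_X + D + Δ)`. -/
theorem le_of_num {h0 h : ℕ} (hnum : LPNumLe k K n Bd δ h0)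
    (hps : RestPsef k K n Bd δ a) (hA : DivGe k K n a h) : h ≤ h0 := by
  by_contra hlt
  push Not at hlt
  obtain ⟨S, m, hm, hS⟩ := sections hps hA
  obtain ⟨C, hC⟩ := hnum S
  set M := C * m ^ h0 with hM
  have h1 : ∀ j : ℕ, 1 ≤ j → j ≤ M := by
    intro j hj
    have h2 := hC (j * m) _ (Nat.mul_pos hj hm)
      (show HasIndep k K n (j ^ h) (IsLPSec k K n Bd δ S (j * m) 1) from by
        obtain ⟨ω, h3, h4⟩ := hS j hj
        exact ⟨ω, h3, fun l => (h4 l).1⟩)
    have h3 : j ^ (h0 + 1) ≤ j ^ h := Nat.pow_le_pow_right hj hlt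
    have h4 : j ^ h0 * j ≤ j ^ h0 * M := by
      calc j ^ h0 * j = j ^ (h0 + 1) := (pow_succ _ _).symm
        _ ≤ C * (j * m) ^ h0 := h3.trans h2
        _ = j ^ h0 * M := by rw [hM, mul_pow]; ring
    exact Nat.le_of_mul_le_mul_left h4 (Nat.pow_pos hj)
  have h2 := h1 (M + 1) (by omega)
  omega

end

end Pool.Agent.TH526.CP
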